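import Pool.Agent.H923R2.FP.Stubs

/-! Task UNIQ: uniqueness of reduced free products. -/

set_option autoImplicit false

open scoped ComplexConjugate ComplexOrder

noncomputable section

namespace Pool.Agent.H923R2.FP.T_UNIQ

open Pool.Agent.H923R2.FP

variable {J : Type} {D : J → Type} [∀ j, CStarAlgebra (D j)] {A B : Type} [CStarAlgebra A]
  [CStarAlgebra B]

/-- the generators of the graph -/
def gens (e : ∀ j, D j →⋆ₐ[ℂ] A) (e' : ∀ j, D j →⋆ₐ[ℂ] B) : Set (A × B) :=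
  ⋃ j, Set.range fun x => (e j x, e' j x)

/-- the graph of the isomorphism -/
def gr (e : ∀ j, D j →⋆ₐ[ℂ] A) (e' : ∀ j, D j →⋆ₐ[ℂ] B) : StarSubalgebra ℂ (A × B) :=
  (StarAlgebra.adjoin ℂ (gens e e')).topologicalClosure

theorem star_gens (e : ∀ j, D j →⋆ₐ[ℂ] A) (e' : ∀ j, D j →⋆ₐ[ℂ] B) :
    star (gens e e') = gens e e' := by
  ext y
  simp only [gens, Set.mem_star, Set.mem_iUnion, Set.mem_range]
  constructor
  · rintro ⟨j, x, hx⟩
    refine ⟨j, star x, ?_⟩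
    rw [map_star, map_star]
    have := congrArg star hx
    rw [star_star] at this
    exact this
  · rintro ⟨j, x, rfl⟩
    refine ⟨j, star x, ?_⟩
    rw [map_star, map_star]
    rfl

theorem word_of_mem (e : ∀ j, D j →⋆ₐ[ℂ] A) (e' : ∀ j, D j →⋆ₐ[ℂ] B) (y : A × B)
    (hy : y ∈ Submonoid.closure (gens e e')) : ∃ w : List (Σ j, D j),
      y = ((w.map fun z => e z.1 z.2).prod, (w.map fun z => e' z.1 z.2).prod) := by
  induction hy using Submonoid.closure_induction with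
  | mem x hx =>
    simp only [gens, Set.mem_iUnion, Set.mem_range] at hx
    obtain ⟨j, z, rfl⟩ := hx
    exact ⟨[⟨j, z⟩], by simp⟩
  | one => exact ⟨[], by simp; rfl⟩
  | mul x y _ _ hx hy =>
    obtain ⟨w, rfl⟩ := hx
    obtain ⟨w', rfl⟩ := hy
    exact ⟨w ++ w', by simp⟩

theorem tr_eq (hMOM : S_MOM) {t : ∀ j, D j → ℂ} {τ : A →ₗ[ℂ] ℂ} {τ' : B →ₗ[ℂ] ℂ}
    {e : ∀ j, D j →⋆ₐ[ℂ] A} {e' : ∀ j, D j →⋆ₐ[ℂ] B} (h : RFP D t τ e) (h' : RFP D t τ' e')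
    (g : A × B) (hg : g ∈ StarAlgebra.adjoin ℂ (gens e e')) : τ g.1 = τ' g.2 := by
  have h1 : g ∈ Submodule.span ℂ (Submonoid.closure (gens e e') : Set (A × B)) := by
    rw [← Algebra.adjoin_eq_span]
    have h2 : g ∈ (StarAlgebra.adjoin ℂ (gens e e')).toSubalgebra := hg
    rw [StarAlgebra.adjoin_toSubalgebra, star_gens, Set.union_self] at h2
    exact h2
  have h3 : Submodule.span ℂ (Submonoid.closure (gens e e') : Set (A × B)) ≤
      LinearMap.ker (τ.comp (LinearMap.fst ℂ A B) - τ'.comp (LinearMap.snd ℂ A B)) := by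
    rw [Submodule.span_le]
    intro y hy
    obtain ⟨w, rfl⟩ := word_of_mem e e' y hy
    have := hMOM J D t A B τ τ' e e' h h' w
    simp [this]
  have h4 := h3 h1
  simpa [sub_eq_zero] using h4

theorem norm_eq (hMOM : S_MOM) (hNRM : S_NRM) {t : ∀ j, D j → ℂ} {τ : A →ₗ[ℂ] ℂ}
    {τ' : B →ₗ[ℂ] ℂ} {e : ∀ j, D j →⋆ₐ[ℂ] A} {e' : ∀ j, D j →⋆ₐ[ℂ] B} (h : RFP D t τ e)
    (h' : RFP D t τ' e') (g : A × B) (hg : g ∈ gr e e') : ‖g.1‖ = ‖g.2‖ := by
  have h1 : (StarAlgebra.adjoin ℂ (gens e e') : Set (A × B)) ⊆ {g | ‖g.1‖ = ‖g.2‖} := by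
    intro g hg
    refine hNRM A B τ τ' h.fts h'.fts g.1 g.2 fun n => ?_
    have h2 : (star g * g) ^ n ∈ StarAlgebra.adjoin ℂ (gens e e') :=
      pow_mem (mul_mem (star_mem hg) hg) n
    have h3 := tr_eq hMOM h h' _ h2
    exact h3
  have h2 : IsClosed {g : A × B | ‖g.1‖ = ‖g.2‖} :=
    isClosed_eq (continuous_fst.norm) (continuous_snd.norm)
  have h3 : g ∈ closure (StarAlgebra.adjoin ℂ (gens e e') : Set (A × B)) := by
    rw [← StarSubalgebra.topologicalClosure_coe]; exact hg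
  exact closure_minimal h1 h2 h3

theorem cont_of_FTS {A : Type} [CStarAlgebra A] {τ : A →ₗ[ℂ] ℂ} (h : FTS τ) : Continuous τ :=
  AddMonoidHomClass.continuous_of_bound τ 1 fun x => by rw [one_mul]; exact h.bound x

theorem tr_eq' (hMOM : S_MOM) {t : ∀ j, D j → ℂ} {τ : A →ₗ[ℂ] ℂ} {τ' : B →ₗ[ℂ] ℂ}
    {e : ∀ j, D j →⋆ₐ[ℂ] A} {e' : ∀ j, D j →⋆ₐ[ℂ] B} (h : RFP D t τ e) (h' : RFP D t τ' e')
    (g : A × B) (hg : g ∈ gr e e') : τ g.1 = τ' g.2 := by
  have h1 : (StarAlgebra.adjoin ℂ (gens e e') : Set (A × B)) ⊆ {g | τ g.1 = τ' g.2} :=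
    fun g hg => tr_eq hMOM h h' g hg
  have h2 : IsClosed {g : A × B | τ g.1 = τ' g.2} :=
    isClosed_eq ((cont_of_FTS h.fts).comp continuous_fst) ((cont_of_FTS h'.fts).comp continuous_snd)
  have h3 : g ∈ closure (StarAlgebra.adjoin ℂ (gens e e') : Set (A × B)) := by
    rw [← StarSubalgebra.topologicalClosure_coe]; exact hg
  exact closure_minimal h1 h2 h3

theorem mem_gr (e : ∀ j, D j →⋆ₐ[ℂ] A) (e' : ∀ j, D j →⋆ₐ[ℂ] B) (j : J) (x : D j) :
    (e j x, e' j x) ∈ gr e e' := by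
  refine StarSubalgebra.le_topologicalClosure _ (StarAlgebra.subset_adjoin ℂ _ ?_)
  exact Set.mem_iUnion.2 ⟨j, x, rfl⟩

/-- first projection -/
def p1 (e : ∀ j, D j →⋆ₐ[ℂ] A) (e' : ∀ j, D j →⋆ₐ[ℂ] B) : gr e e' →⋆ₐ[ℂ] A :=
  (StarAlgHom.fst ℂ A B).comp (gr e e').subtype

/-- second projection -/
def p2 (e : ∀ j, D j →⋆ₐ[ℂ] A) (e' : ∀ j, D j →⋆ₐ[ℂ] B) : gr e e' →⋆ₐ[ℂ] B :=
  (StarAlgHom.snd ℂ A B).comp (gr e e').subtype

theorem p1_apply (e : ∀ j, D j →⋆ₐ[ℂ] A) (e' : ∀ j, D j →⋆ₐ[ℂ] B) (g : gr e e') :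
    p1 e e' g = (g : A × B).1 := rfl

theorem p2_apply (e : ∀ j, D j →⋆ₐ[ℂ] A) (e' : ∀ j, D j →⋆ₐ[ℂ] B) (g : gr e e') :
    p2 e e' g = (g : A × B).2 := rfl

theorem surj_of {C : Type} [CStarAlgebra C] (G : Type) [NormedRing G] [StarRing G]
    [NormedAlgebra ℂ G] [CompleteSpace G] (p : G →⋆ₐ[ℂ] C) (hp : ∀ g, ‖p g‖ = ‖g‖)
    (f : ∀ j, D j →⋆ₐ[ℂ] C) (hf : ∀ j x, ∃ g, p g = f j x)
    (hgen : (StarAlgebra.adjoin ℂ (⋃ j, Set.range (f j))).topologicalClosure = ⊤) :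
    Function.Surjective p := by
  have hiso : Isometry p := AddMonoidHomClass.isometry_of_norm p hp
  have hcl : IsClosed (p.range : Set C) := by
    have : (p.range : Set C) = Set.range p := rfl
    rw [this]
    exact hiso.isClosedEmbedding.isClosed_range
  have h1 : StarAlgebra.adjoin ℂ (⋃ j, Set.range (f j)) ≤ p.range := by
    refine StarAlgebra.adjoin_le ?_
    rintro y hy
    obtain ⟨j, x, rfl⟩ := Set.mem_iUnion.1 hy
    obtain ⟨g, hg⟩ := hf j x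
    exact ⟨g, hg⟩
  have h2 := StarSubalgebra.topologicalClosure_minimal h1 hcl
  rw [hgen] at h2
  intro y
  exact h2 (StarSubalgebra.mem_top (x := y))

theorem t_UNIQ (hMOM : S_MOM) (hNRM : S_NRM) : S_UNIQ := by
  intro J D _ t A B _ _ τ τ' e e' h h'
  have hn : ∀ g : gr e e', ‖(g : A × B).1‖ = ‖(g : A × B).2‖ := fun g =>
    norm_eq hMOM hNRM h h' g g.2
  have h1 : ∀ g : gr e e', ‖p1 e e' g‖ = ‖g‖ := by
    intro g
    rw [p1_apply]
    have : ‖g‖ = max ‖(g : A × B).1‖ ‖(g : A × B).2‖ := rfl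
    rw [this, ← hn, max_self]
  have h2 : ∀ g : gr e e', ‖p2 e e' g‖ = ‖g‖ := by
    intro g
    rw [p2_apply]
    have : ‖g‖ = max ‖(g : A × B).1‖ ‖(g : A × B).2‖ := rfl
    rw [this, hn, max_self]
  have : CompleteSpace (gr e e') :=
    (StarSubalgebra.isClosed_topologicalClosure _).completeSpace_coe
  have s1 : Function.Surjective (p1 e e') := surj_of (gr e e') (p1 e e') h1 e
    (fun j x => ⟨⟨_, mem_gr e e' j x⟩, rfl⟩) h.gen
  have s2 : Function.Surjective (p2 e e') := surj_of (gr e e') (p2 e e') h2 e'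
    (fun j x => ⟨⟨_, mem_gr e e' j x⟩, rfl⟩) h'.gen
  have i1 : Function.Injective (p1 e e') :=
    (AddMonoidHomClass.isometry_of_norm (p1 e e') h1).injective
  have i2 : Function.Injective (p2 e e') :=
    (AddMonoidHomClass.isometry_of_norm (p2 e e') h2).injective
  set E1 := StarAlgEquiv.ofBijective (p1 e e') ⟨i1, s1⟩ with hE1
  set E2 := StarAlgEquiv.ofBijective (p2 e e') ⟨i2, s2⟩ with hE2
  refine ⟨E1.symm.trans E2, fun j x => ?_, fun x => ?_⟩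
  · have h3 : E1.symm (e j x) = ⟨_, mem_gr e e' j x⟩ := by
      rw [StarAlgEquiv.symm_apply_eq]
      rfl
    rw [StarAlgEquiv.trans_apply, h3]
    rfl
  · obtain ⟨g, rfl⟩ := s1 x
    have h3 : E1.symm (p1 e e' g) = g := by
      rw [StarAlgEquiv.symm_apply_eq]
      rfl
    rw [StarAlgEquiv.trans_apply, h3]
    exact (tr_eq' hMOM h h' g g.2).symm

end Pool.Agent.H923R2.FP.T_UNIQ
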