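import Mathlib

/-!
Counting lemmas: mode of the binomial distribution, averaging over permutations, and the
generating function of the number of isolated ones.
-/

namespace Pool.Agent.H536R2

open Finset

/-! ### mode of the binomial distribution -/

/-- the (scaled) binomial term -/
def bt (n y k : ℕ) : ℕ := n.choose k * y ^ k * (n - y) ^ (n - k)

lemma bt_step_up (n y k : ℕ) (hy : y ≤ n) (hk : k < y) : bt n y k ≤ bt n y (k + 1) := by
  have hkn : k < n := lt_of_lt_of_le hk hy
  have h1 : n.choose (k + 1) * (k + 1) = n.choose k * (n - k) := Nat.choose_succ_right_eq n k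
  have h2 : (k + 1) * (n - y) ≤ (n - k) * y := by
    calc (k + 1) * (n - y) ≤ y * (n - k) := Nat.mul_le_mul (by omega) (by omega)
      _ = (n - k) * y := by ring
  have h3 : n - k = (n - (k + 1)) + 1 := by omega
  have : (k + 1) * bt n y k ≤ (k + 1) * bt n y (k + 1) := by
    unfold bt
    calc (k + 1) * (n.choose k * y ^ k * (n - y) ^ (n - k))
        = n.choose k * y ^ k * (n - y) ^ (n - (k + 1)) * ((k + 1) * (n - y)) := by
          rw [h3, pow_succ]; ring
      _ ≤ n.choose k * y ^ k * (n - y) ^ (n - (k + 1)) * ((n - k) * y) :=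
          Nat.mul_le_mul_left _ h2
      _ = (n.choose k * (n - k)) * y ^ (k + 1) * (n - y) ^ (n - (k + 1)) := by ring
      _ = (k + 1) * (n.choose (k + 1) * y ^ (k + 1) * (n - y) ^ (n - (k + 1))) := by
          rw [← h1]; ring
  exact Nat.le_of_mul_le_mul_left this (Nat.succ_pos k)

lemma bt_step_down (n y k : ℕ) (hyk : y ≤ k) (hk : k < n) :
    bt n y (k + 1) ≤ bt n y k := by
  have h1 : n.choose (k + 1) * (k + 1) = n.choose k * (n - k) := Nat.choose_succ_right_eq n k
  have h2 : (n - k) * y ≤ (k + 1) * (n - y) := by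
    calc (n - k) * y ≤ (n - y) * (k + 1) := Nat.mul_le_mul (by omega) (by omega)
      _ = (k + 1) * (n - y) := by ring
  have h3 : n - k = (n - (k + 1)) + 1 := by omega
  have : (k + 1) * bt n y (k + 1) ≤ (k + 1) * bt n y k := by
    unfold bt
    calc (k + 1) * (n.choose (k + 1) * y ^ (k + 1) * (n - y) ^ (n - (k + 1)))
        = (n.choose k * (n - k)) * y ^ (k + 1) * (n - y) ^ (n - (k + 1)) := by
          rw [← h1]; ring
      _ = n.choose k * y ^ k * (n - y) ^ (n - (k + 1)) * ((n - k) * y) := by ring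
      _ ≤ n.choose k * y ^ k * (n - y) ^ (n - (k + 1)) * ((k + 1) * (n - y)) :=
          Nat.mul_le_mul_left _ h2
      _ = (k + 1) * (n.choose k * y ^ k * (n - y) ^ (n - k)) := by
          rw [h3, pow_succ]; ring
  exact Nat.le_of_mul_le_mul_left this (Nat.succ_pos k)

lemma bt_le_mode_of_le (n y : ℕ) (hy : y ≤ n) (k : ℕ) (hk : k ≤ y) : bt n y k ≤ bt n y y := by
  induction hk using Nat.decreasingInduction with
  | self => exact le_rfl
  | of_succ k hk ih => exact (bt_step_up n y k hy (by omega)).trans ih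

lemma bt_le_mode_of_ge (n y : ℕ) (k : ℕ) (hyk : y ≤ k) (hk : k ≤ n) : bt n y k ≤ bt n y y := by
  induction k, hyk using Nat.le_induction with
  | base => exact le_rfl
  | succ k hyk ih => exact (bt_step_down n y k hyk (by omega)).trans (ih (by omega))

lemma bt_le_mode (n y : ℕ) (hy : y ≤ n) (k : ℕ) (hk : k ≤ n) : bt n y k ≤ bt n y y := by
  rcases le_total k y with h | h
  · exact bt_le_mode_of_le n y hy k h
  · exact bt_le_mode_of_ge n y k h hk

lemma pow_self_le_mode (n y : ℕ) (hy : y ≤ n) : n ^ n ≤ (n + 1) * bt n y y := by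
  have h : (y + (n - y)) ^ n = ∑ k ∈ range (n + 1), bt n y k := by
    rw [add_pow]
    refine Finset.sum_congr rfl fun k _ => ?_
    unfold bt; rw [Nat.cast_id]; ring
  have hyn : y + (n - y) = n := by omega
  rw [hyn] at h
  rw [h]
  calc ∑ k ∈ range (n + 1), bt n y k ≤ ∑ _k ∈ range (n + 1), bt n y y :=
        Finset.sum_le_sum fun k hk => bt_le_mode n y hy k (by
          have := Finset.mem_range.1 hk; omega)
    _ = (n + 1) * bt n y y := by simp

lemma mode_real (n y : ℕ) (hn : 0 < n) (hy : y ≤ n) (p : ℝ) (hp : p = y / n) :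
    1 ≤ (n + 1 : ℝ) * (n.choose y * p ^ y * (1 - p) ^ (n - y)) := by
  have h := pow_self_le_mode n y hy
  have hn' : (0 : ℝ) < n := by exact_mod_cast hn
  have h2 : (1 - p) = ((n - y : ℕ) : ℝ) / n := by
    rw [hp, Nat.cast_sub hy]; field_simp
  have h3 : (n : ℝ) ^ n ≤ (n + 1 : ℝ) * (n.choose y * (y : ℝ) ^ y * ((n - y : ℕ) : ℝ) ^ (n - y)) := by
    have : ((n ^ n : ℕ) : ℝ) ≤ (((n + 1) * bt n y y : ℕ) : ℝ) := by exact_mod_cast h
    unfold bt at this
    push_cast at this
    push_cast
    linarith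
  have h4 : (n : ℝ) ^ n = (n : ℝ) ^ y * (n : ℝ) ^ (n - y) := by
    rw [← pow_add]; congr 1; omega
  have h5 : (0 : ℝ) < (n : ℝ) ^ n := by positivity
  rw [h2, hp, div_pow, div_pow]
  have h6 : (n + 1 : ℝ) * (n.choose y * ((y : ℝ) ^ y / (n : ℝ) ^ y) *
      (((n - y : ℕ) : ℝ) ^ (n - y) / (n : ℝ) ^ (n - y)))
      = ((n + 1 : ℝ) * (n.choose y * (y : ℝ) ^ y * ((n - y : ℕ) : ℝ) ^ (n - y))) / (n : ℝ) ^ n := by
    rw [h4]; field_simp
  rw [h6, le_div_iff₀ h5, one_mul]
  exact h3

/-! ### averaging over permutations -/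

lemma sum_perm_map_eq {n : ℕ} (h : Finset (Fin n) → ℝ) (Y Y' : Finset (Fin n))
    (hc : Y.card = Y'.card) :
    ∑ π : Equiv.Perm (Fin n), h (Y.map π.toEmbedding) =
      ∑ π : Equiv.Perm (Fin n), h (Y'.map π.toEmbedding) := by
  classical
  obtain ⟨ρ, hρ⟩ : ∃ ρ : Equiv.Perm (Fin n), Y.map ρ.toEmbedding = Y' := by
    have e : {x // x ∈ Y} ≃ {x // x ∈ Y'} := Finset.equivOfCardEq hc
    refine ⟨e.extendSubtype, ?_⟩
    have hsub : Y.map (e.extendSubtype).toEmbedding ⊆ Y' := by
      intro x hx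
      rw [Finset.mem_map] at hx
      obtain ⟨a, ha, rfl⟩ := hx
      exact e.extendSubtype_mem a ha
    refine Finset.eq_of_subset_of_card_le hsub ?_
    rw [Finset.card_map, hc]
  calc ∑ π : Equiv.Perm (Fin n), h (Y.map π.toEmbedding)
      = ∑ π : Equiv.Perm (Fin n), h (Y.map ((π * ρ : Equiv.Perm (Fin n))).toEmbedding) :=
        (Equiv.sum_comp (Equiv.mulRight ρ)
          (fun π : Equiv.Perm (Fin n) => h (Y.map π.toEmbedding))).symm
    _ = ∑ π : Equiv.Perm (Fin n), h (Y'.map π.toEmbedding) := by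
        refine Finset.sum_congr rfl fun π _ => ?_
        congr 1
        rw [← hρ, Finset.map_map]
        rfl

lemma sum_perm_map {n : ℕ} (h : Finset (Fin n) → ℝ) (Y : Finset (Fin n)) :
    (n.choose Y.card : ℝ) * ∑ π : Equiv.Perm (Fin n), h (Y.map π.toEmbedding) =
      (n.factorial : ℝ) * ∑ S ∈ (univ : Finset (Fin n)).powersetCard Y.card, h S := by
  classical
  have h1 : ∑ Y' ∈ (univ : Finset (Fin n)).powersetCard Y.card,
      ∑ π : Equiv.Perm (Fin n), h (Y'.map π.toEmbedding) =
      (n.choose Y.card : ℝ) * ∑ π : Equiv.Perm (Fin n), h (Y.map π.toEmbedding) := by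
    rw [Finset.sum_congr rfl (fun Y' hY' => sum_perm_map_eq h Y' Y
      ((Finset.mem_powersetCard.1 hY').2))]
    rw [Finset.sum_const, Finset.card_powersetCard, Finset.card_univ, Fintype.card_fin,
      nsmul_eq_mul]
  have h2 : ∑ Y' ∈ (univ : Finset (Fin n)).powersetCard Y.card,
      ∑ π : Equiv.Perm (Fin n), h (Y'.map π.toEmbedding) =
      (n.factorial : ℝ) * ∑ S ∈ (univ : Finset (Fin n)).powersetCard Y.card, h S := by
    rw [Finset.sum_comm]
    have : ∀ π : Equiv.Perm (Fin n),
        ∑ Y' ∈ (univ : Finset (Fin n)).powersetCard Y.card, h (Y'.map π.toEmbedding) =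
        ∑ S ∈ (univ : Finset (Fin n)).powersetCard Y.card, h S := by
      intro π
      refine Finset.sum_bij' (fun S _ => S.map π.toEmbedding)
        (fun S _ => S.map π.symm.toEmbedding) ?_ ?_ ?_ ?_ ?_
      · intro S hS
        rw [Finset.mem_powersetCard] at hS ⊢
        exact ⟨Finset.subset_univ _, by rw [Finset.card_map]; exact hS.2⟩
      · intro S hS
        rw [Finset.mem_powersetCard] at hS ⊢
        exact ⟨Finset.subset_univ _, by rw [Finset.card_map]; exact hS.2⟩
      · intro S _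
        rw [Finset.map_map]
        ext x; simp
      · intro S _
        rw [Finset.map_map]
        ext x; simp
      · intro S _; rfl
    rw [Finset.sum_congr rfl (fun π _ => this π), Finset.sum_const, Finset.card_univ,
      Fintype.card_perm, Fintype.card_fin, nsmul_eq_mul]
  rw [← h1, h2]

/-! ### isolated ones in a random 0/1 word -/

/-- extension of a word by `true` -/
def bext {n : ℕ} (f : Fin n → Bool) (i : ℕ) : Bool := if h : i < n then f ⟨i, h⟩ else true

/-- the number of positions at which the pattern 0 1 0 starts -/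
def iso {n : ℕ} (f : Fin n → Bool) : ℕ :=
  ∑ i ∈ range n, if bext f i = false ∧ bext f (i + 1) = true ∧ bext f (i + 2) = false then 1 else 0

lemma bext_cons_zero {n : ℕ} (b : Bool) (f : Fin n → Bool) :
    bext (Fin.cons b f : Fin (n + 1) → Bool) 0 = b := by
  simp [bext]

lemma bext_cons_succ {n : ℕ} (b : Bool) (f : Fin n → Bool) (i : ℕ) :
    bext (Fin.cons b f : Fin (n + 1) → Bool) (i + 1) = bext f i := by
  unfold bext
  by_cases h : i < n
  · have h' : i + 1 < n + 1 := by omega
    rw [dif_pos h, dif_pos h']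
    have : (⟨i + 1, h'⟩ : Fin (n + 1)) = Fin.succ ⟨i, h⟩ := rfl
    rw [this, Fin.cons_succ]
  · have h' : ¬ (i + 1 < n + 1) := by omega
    rw [dif_neg h, dif_neg h']

lemma iso_cons {n : ℕ} (b : Bool) (f : Fin n → Bool) :
    iso (Fin.cons b f : Fin (n + 1) → Bool) =
      iso f + (if b = false ∧ bext f 0 = true ∧ bext f 1 = false then 1 else 0) := by
  unfold iso
  rw [Finset.sum_range_succ']
  simp only [bext_cons_succ, bext_cons_zero]

/-- the product weight of a word -/
noncomputable def wt (p : ℝ) {n : ℕ} (f : Fin n → Bool) : ℝ := ∏ i, if f i then p else 1 - p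

lemma wt_cons (p : ℝ) {n : ℕ} (b : Bool) (f : Fin n → Bool) :
    wt p (Fin.cons b f : Fin (n + 1) → Bool) = (if b then p else 1 - p) * wt p f := by
  unfold wt
  rw [Fin.prod_univ_succ]
  simp

lemma wt_nonneg (p : ℝ) (h0 : 0 ≤ p) (h1 : p ≤ 1) {n : ℕ} (f : Fin n → Bool) : 0 ≤ wt p f := by
  unfold wt
  refine Finset.prod_nonneg fun i _ => ?_
  split_ifs <;> linarith

/-- the potential -/
def pot (h0 h1 h2 : ℝ) (u v : Bool) : ℝ := if u = false then h0 else if v = false then h1 else h2

lemma potential_sum (p lam h0 h1 h2 : ℝ) (hp0 : 0 ≤ p) (hp1 : p ≤ 1)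
    (e0 : (1 - p) * h0 + p * h1 ≤ lam * h0)
    (e1 : (1 - p) * (1 / 2) * h0 + p * h2 ≤ lam * h1)
    (e2 : (1 - p) * h0 + p * h2 ≤ lam * h2) (hlam : 0 ≤ lam) (n : ℕ) :
    ∑ f : Fin n → Bool, wt p f * (1 / 2 : ℝ) ^ iso f * pot h0 h1 h2 (bext f 0) (bext f 1)
      ≤ lam ^ n * h2 := by
  induction n with
  | zero =>
    simp [wt, iso, pot, bext]
  | succ n ih =>
    have hstep : ∀ f : Fin n → Bool,
        (∑ b : Bool, wt p (Fin.cons b f : Fin (n + 1) → Bool) *
          (1 / 2 : ℝ) ^ iso (Fin.cons b f : Fin (n + 1) → Bool) *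
          pot h0 h1 h2 (bext (Fin.cons b f : Fin (n + 1) → Bool) 0)
            (bext (Fin.cons b f : Fin (n + 1) → Bool) 1)) ≤
        lam * (wt p f * (1 / 2 : ℝ) ^ iso f * pot h0 h1 h2 (bext f 0) (bext f 1)) := by
      intro f
      have hw : 0 ≤ wt p f * (1 / 2 : ℝ) ^ iso f := by
        have := wt_nonneg p hp0 hp1 f
        positivity
      have key : (∑ b : Bool, wt p (Fin.cons b f : Fin (n + 1) → Bool) *
          (1 / 2 : ℝ) ^ iso (Fin.cons b f : Fin (n + 1) → Bool) *
          pot h0 h1 h2 (bext (Fin.cons b f : Fin (n + 1) → Bool) 0)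
            (bext (Fin.cons b f : Fin (n + 1) → Bool) 1)) =
          (wt p f * (1 / 2 : ℝ) ^ iso f) * (
            (1 - p) * (if bext f 0 = true ∧ bext f 1 = false then (1 / 2 : ℝ) else 1) * h0 +
            p * (if bext f 0 = false then h1 else h2)) := by
        rw [Fintype.sum_bool]
        simp only [wt_cons, iso_cons, bext_cons_zero]
        have h1' : ∀ b, bext (Fin.cons b f : Fin (n + 1) → Bool) 1 = bext f 0 := fun b =>
          bext_cons_succ b f 0
        rw [h1', h1']
        simp only [pot]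
        by_cases c1 : bext f 0 = true
        · by_cases c2 : bext f 1 = false
          · simp [c1, c2, pow_succ]; ring
          · simp [c1, c2]; ring
        · have c1' : bext f 0 = false := by simpa using c1
          simp [c1']; ring
      rw [key]
      have : ((1 - p) * (if bext f 0 = true ∧ bext f 1 = false then (1 / 2 : ℝ) else 1) * h0 +
            p * (if bext f 0 = false then h1 else h2)) ≤ lam * pot h0 h1 h2 (bext f 0) (bext f 1) := by
        unfold pot
        by_cases c1 : bext f 0 = true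
        · by_cases c2 : bext f 1 = false
          · simp [c1, c2]; linarith
          · simp [c1, c2]; linarith
        · have c1' : bext f 0 = false := by simpa using c1
          simp [c1']; linarith
      nlinarith [mul_le_mul_of_nonneg_left this hw]
    have hsum : ∑ f : Fin (n + 1) → Bool, wt p f * (1 / 2 : ℝ) ^ iso f *
        pot h0 h1 h2 (bext f 0) (bext f 1) =
        ∑ f : Fin n → Bool, ∑ b : Bool, wt p (Fin.cons b f : Fin (n + 1) → Bool) *
          (1 / 2 : ℝ) ^ iso (Fin.cons b f : Fin (n + 1) → Bool) *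
          pot h0 h1 h2 (bext (Fin.cons b f : Fin (n + 1) → Bool) 0)
            (bext (Fin.cons b f : Fin (n + 1) → Bool) 1) := by
      rw [Finset.sum_comm, ← Fintype.sum_prod_type']
      exact (Equiv.sum_comp (Fin.consEquiv (fun _ : Fin (n + 1) => Bool))
        (fun f : Fin (n + 1) → Bool => wt p f * (1 / 2 : ℝ) ^ iso f *
        pot h0 h1 h2 (bext f 0) (bext f 1))).symm
    rw [hsum]
    calc _ ≤ ∑ f : Fin n → Bool,
          lam * (wt p f * (1 / 2 : ℝ) ^ iso f * pot h0 h1 h2 (bext f 0) (bext f 1)) :=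
          Finset.sum_le_sum fun f _ => hstep f
      _ = lam * ∑ f : Fin n → Bool,
          (wt p f * (1 / 2 : ℝ) ^ iso f * pot h0 h1 h2 (bext f 0) (bext f 1)) := by
          rw [Finset.mul_sum]
      _ ≤ lam * (lam ^ n * h2) := mul_le_mul_of_nonneg_left ih hlam
      _ = lam ^ (n + 1) * h2 := by ring

/-- The generating function bound used below: `lam = 933/1000`. -/
lemma gen_bound (p : ℝ) (hp0 : 1 / 5 ≤ p) (hp1 : p ≤ 2 / 5) (n : ℕ) :
    ∑ f : Fin n → Bool, wt p f * (1 / 2 : ℝ) ^ iso f ≤ 2 * (933 / 1000 : ℝ) ^ n := by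
  set lam : ℝ := 933 / 1000 with hlam
  set h1 : ℝ := (lam - 1 + p) / p with hh1
  set h2 : ℝ := (1 - p) / (lam - p) with hh2
  have hppos : 0 < p := by linarith
  have hlp : 0 < lam - p := by rw [hlam]; linarith
  have hh1' : p * h1 = lam - 1 + p := by rw [hh1]; field_simp
  have hh2' : h2 * (lam - p) = 1 - p := by rw [hh2]; field_simp
  have e0 : (1 - p) * 1 + p * h1 ≤ lam * 1 := by rw [hh1']; linarith
  have e2 : (1 - p) * 1 + p * h2 ≤ lam * h2 := by nlinarith
  have e1 : (1 - p) * (1 / 2) * 1 + p * h2 ≤ lam * h1 := by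
    have hm : 0 < p * (lam - p) := by positivity
    have : p * (lam - p) * ((1 - p) * (1 / 2) * 1 + p * h2) ≤ p * (lam - p) * (lam * h1) := by
      have l1 : p * (lam - p) * ((1 - p) * (1 / 2) * 1 + p * h2) =
          p * (lam - p) * (1 - p) / 2 + p * p * (h2 * (lam - p)) := by ring
      have l2 : p * (lam - p) * (lam * h1) = (lam - p) * lam * (p * h1) := by ring
      rw [l1, l2, hh1', hh2', hlam]
      nlinarith [mul_nonneg (sub_nonneg.2 hp0) (sub_nonneg.2 hp1),
        mul_nonneg (mul_nonneg (sub_nonneg.2 hp0) (sub_nonneg.2 hp1)) hppos.le]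
    exact le_of_mul_le_mul_left this hm
  have hb := potential_sum p lam 1 h1 h2 hppos.le (by linarith) e0 e1 e2
    (by rw [hlam]; norm_num) n
  have hh1lb : 133 / 200 ≤ h1 := by
    rw [hh1, le_div_iff₀ hppos, hlam]; linarith
  have hh2ub : h2 ≤ 113 / 100 := by
    rw [hh2, div_le_iff₀ hlp, hlam]; linarith
  have hh2lb : 1 ≤ h2 := by
    rw [hh2, le_div_iff₀ hlp, hlam]; linarith
  have hh1ub : h1 ≤ 1 := by
    rw [hh1, div_le_iff₀ hppos, hlam]; linarith
  have hpot : ∀ u v, (133 / 200 : ℝ) ≤ pot 1 h1 h2 u v := by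
    intro u v
    unfold pot
    split_ifs <;> linarith
  have hle : (133 / 200 : ℝ) * ∑ f : Fin n → Bool, wt p f * (1 / 2 : ℝ) ^ iso f ≤
      lam ^ n * h2 := by
    refine le_trans ?_ hb
    rw [Finset.mul_sum]
    refine Finset.sum_le_sum fun f _ => ?_
    have hw : 0 ≤ wt p f * (1 / 2 : ℝ) ^ iso f := by
      have := wt_nonneg p hppos.le (by linarith) f
      positivity
    nlinarith [hpot (bext f 0) (bext f 1)]
  have hl : (0 : ℝ) ≤ lam ^ n := by rw [hlam]; positivity
  nlinarith

end Pool.Agent.H536R2
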