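import Mathlib

/-!
Definitions for the lower bound on (min,+) circuits for the planar Euclidean TSP.
-/

namespace Pool.Agent.H536R2

/-- A gate of a (min,+) circuit whose earlier gates are numbered by `Fin k`: an input variable
`x_e`, a real constant, the minimum of two earlier gates, or the sum of two earlier gates. -/
inductive Gate (V : Type) (k : ℕ) : Type
  | input (e : V) : Gate V k
  | const (c : ℝ) : Gate V k
  | minG (a b : Fin k) : Gate V k
  | addG (a b : Fin k) : Gate V k

/-- A (min,+) circuit (straight-line program) with exactly `k` gates, numbered by `Fin k`; every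
gate only uses earlier gates. -/
inductive Circuit (V : Type) : ℕ → Type
  | nil : Circuit V 0
  | snoc {k : ℕ} (C : Circuit V k) (g : Gate V k) : Circuit V (k + 1)

/-- Value of a gate, given the input values `x` and the values `v` of the earlier gates. -/
noncomputable def Gate.eval {V : Type} {k : ℕ} (x : V → ℝ) (v : Fin k → ℝ) : Gate V k → ℝ
  | .input e => x e
  | .const c => c
  | .minG a b => min (v a) (v b)
  | .addG a b => v a + v b

/-- Values of all gates of a circuit on the input `x`. -/
noncomputable def Circuit.eval {V : Type} (x : V → ℝ) : {k : ℕ} → Circuit V k → Fin k → ℝ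
  | _, .nil => fun i => i.elim0
  | _, .snoc C g => Fin.snoc (α := fun _ => ℝ) (C.eval x) (g.eval x (C.eval x))

/-- Euclidean distance of the points number `i` and `j` of the point list `p`. -/
noncomputable def edist {n : ℕ} (p : Fin n → ℤ × ℤ) (i j : Fin n) : ℝ :=
  Real.sqrt ((((p i).1 - (p j).1 : ℤ) : ℝ) ^ 2 + (((p i).2 - (p j).2 : ℤ) : ℝ) ^ 2)

/-- Euclidean length of the closed tour through the points of `p` in the cyclic order `σ`. -/
noncomputable def tourLength {n : ℕ} (p : Fin n → ℤ × ℤ) (σ : Equiv.Perm (Fin n)) : ℝ :=
  ∑ i, edist p (σ i) (σ (finRotate n i))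

/-- Length of a shortest tour through the points of `p`. -/
noncomputable def opt {n : ℕ} (p : Fin n → ℤ × ℤ) : ℝ :=
  ⨅ σ : Equiv.Perm (Fin n), tourLength p σ

end Pool.Agent.H536R2
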