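import Mathlib
import Pool.Agent.H536R2.TropDefs

/-!
Monomials produced by a (min,+) circuit and the decomposition lemma.
-/

namespace Pool.Agent.H536R2

open Finset

/-- monomials (with constants) produced at a gate -/
def Gate.mon {V : Type} {k : ℕ} (M : Fin k → List (Multiset V × ℝ)) :
    Gate V k → List (Multiset V × ℝ)
  | .input e => [({e}, 0)]
  | .const c => [(0, c)]
  | .minG a b => M a ++ M b
  | .addG a b => (M a).flatMap fun q => (M b).map fun r => (q.1 + r.1, q.2 + r.2)

/-- monomials produced at all gates of a circuit -/
def Circuit.mon {V : Type} : {k : ℕ} → Circuit V k → Fin k → List (Multiset V × ℝ)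
  | _, .nil => fun i => i.elim0
  | _, .snoc C g => Fin.snoc (α := fun _ => List (Multiset V × ℝ)) (C.mon) (g.mon (C.mon))

/-- value of a monomial -/
def mval {V : Type} (x : V → ℝ) (m : Multiset V × ℝ) : ℝ := (m.1.map x).sum + m.2

lemma mval_add {V : Type} (x : V → ℝ) (m m' : Multiset V × ℝ) :
    mval x (m.1 + m'.1, m.2 + m'.2) = mval x m + mval x m' := by
  simp [mval]; ring

lemma Circuit.eval_le {V : Type} (x : V → ℝ) : ∀ {k : ℕ} (C : Circuit V k) (i : Fin k),
    ∀ m ∈ C.mon i, C.eval x i ≤ mval x m
  | _, .nil, i => i.elim0
  | _, .snoc C g, i => by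
    have ih := Circuit.eval_le x C
    refine Fin.lastCases ?_ (fun j => ?_) i
    · simp only [Circuit.mon, Circuit.eval, Fin.snoc_last]
      cases g with
      | input e => intro m hm; simp [Gate.mon] at hm; subst hm; simp [Gate.eval, mval]
      | const c => intro m hm; simp [Gate.mon] at hm; subst hm; simp [Gate.eval, mval]
      | minG a b =>
        intro m hm
        simp only [Gate.mon, List.mem_append] at hm
        simp only [Gate.eval]
        rcases hm with hm | hm
        · exact (min_le_left _ _).trans (ih a m hm)
        · exact (min_le_right _ _).trans (ih b m hm)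
      | addG a b =>
        intro m hm
        simp only [Gate.mon, List.mem_flatMap, List.mem_map] at hm
        obtain ⟨q, hq, r, hr, rfl⟩ := hm
        simp only [Gate.eval]
        rw [mval_add]
        exact add_le_add (ih a q hq) (ih b r hr)
    · simp only [Circuit.mon, Circuit.eval, Fin.snoc_castSucc]
      exact ih j

lemma Circuit.exists_eq {V : Type} (x : V → ℝ) : ∀ {k : ℕ} (C : Circuit V k) (i : Fin k),
    ∃ m ∈ C.mon i, C.eval x i = mval x m
  | _, .nil, i => i.elim0
  | _, .snoc C g, i => by
    have ih := Circuit.exists_eq x C
    refine Fin.lastCases ?_ (fun j => ?_) i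
    · simp only [Circuit.mon, Circuit.eval, Fin.snoc_last]
      cases g with
      | input e => exact ⟨({e}, 0), by simp [Gate.mon], by simp [Gate.eval, mval]⟩
      | const c => exact ⟨(0, c), by simp [Gate.mon], by simp [Gate.eval, mval]⟩
      | minG a b =>
        obtain ⟨ma, hma, ea⟩ := ih a
        obtain ⟨mb, hmb, eb⟩ := ih b
        simp only [Gate.eval, Gate.mon, List.mem_append]
        rcases le_total (C.eval x a) (C.eval x b) with h | h
        · exact ⟨ma, Or.inl hma, by rw [min_eq_left h, ea]⟩
        · exact ⟨mb, Or.inr hmb, by rw [min_eq_right h, eb]⟩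
      | addG a b =>
        obtain ⟨ma, hma, ea⟩ := ih a
        obtain ⟨mb, hmb, eb⟩ := ih b
        simp only [Gate.eval, Gate.mon, List.mem_flatMap, List.mem_map]
        exact ⟨(ma.1 + mb.1, ma.2 + mb.2), ⟨ma, hma, mb, hmb, rfl⟩, by rw [mval_add, ea, eb]⟩
    · simp only [Circuit.mon, Circuit.eval, Fin.snoc_castSucc]
      exact ih j

/-- the (non-loop) degree of a vertex in a multiset of edges -/
def deg {n : ℕ} (M : Multiset (Fin n × Fin n)) (v : Fin n) : ℕ :=
  M.countP fun e => e.1 ≠ e.2 ∧ (v = e.1 ∨ v = e.2)

lemma deg_add {n : ℕ} (M M' : Multiset (Fin n × Fin n)) (v : Fin n) :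
    deg (M + M') v = deg M v + deg M' v := by
  simp [deg]

lemma deg_zero {n : ℕ} (v : Fin n) : deg (0 : Multiset (Fin n × Fin n)) v = 0 := by
  simp [deg]

lemma deg_cons {n : ℕ} (e : Fin n × Fin n) (M : Multiset (Fin n × Fin n)) (v : Fin n) :
    deg (e ::ₘ M) v = deg M v + if e.1 ≠ e.2 ∧ (v = e.1 ∨ v = e.2) then 1 else 0 := by
  simp only [deg, Multiset.countP_cons]

/-- the vertices touched by every monomial of a list -/
def touched {n : ℕ} (L : List (Multiset (Fin n × Fin n) × ℝ)) : Finset (Fin n) :=
  univ.filter fun v => ∀ m ∈ L, 1 ≤ deg m.1 v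

lemma mem_touched {n : ℕ} (L : List (Multiset (Fin n × Fin n) × ℝ)) (v : Fin n) :
    v ∈ touched L ↔ ∀ m ∈ L, 1 ≤ deg m.1 v := by
  simp [touched]

/-- The decomposition lemma. -/
theorem Circuit.descent {n : ℕ} (t : ℕ) (ht : 2 ≤ t) :
    ∀ {k : ℕ} (C : Circuit (Fin n × Fin n) k) (i : Fin k), ∀ m ∈ C.mon i,
      t < (touched (C.mon i)).card →
      ∃ g : Fin k, (touched (C.mon g)).card ≤ t ∧ t < 2 * (touched (C.mon g)).card ∧
        ∃ A ∈ C.mon g, ∃ B : Multiset (Fin n × Fin n) × ℝ, A.1 + B.1 = m.1 ∧
          ∀ A' ∈ C.mon g, (A'.1 + B.1, A'.2 + B.2) ∈ C.mon i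
  | _, .nil, i => i.elim0
  | _, .snoc C g, i => by
    have ih := Circuit.descent t ht C
    refine Fin.lastCases ?_ (fun j => ?_) i
    · simp only [Circuit.mon, Fin.snoc_last]
      cases g with
      | input e =>
        intro m hm hcard
        exfalso
        have hsub : touched (Gate.mon C.mon (Gate.input e)) ⊆ {e.1, e.2} := by
          intro v hv
          rw [mem_touched] at hv
          have := hv ({e}, 0) (by simp [Gate.mon])
          rw [← Multiset.cons_zero, deg_cons, deg_zero] at this
          by_contra hcon
          simp only [Finset.mem_insert, Finset.mem_singleton] at hcon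
          rw [if_neg (fun h => hcon h.2)] at this
          omega
        have h2 := Finset.card_le_card hsub
        have h3 : ({e.1, e.2} : Finset (Fin n)).card ≤ 2 := Finset.card_le_two
        omega
      | const c =>
        intro m hm hcard
        exfalso
        have hsub : touched (Gate.mon C.mon (Gate.const c)) ⊆ (∅ : Finset (Fin n)) := by
          intro v hv
          rw [mem_touched] at hv
          have := hv (0, c) (by simp [Gate.mon])
          simp [deg] at this
        have h2 := Finset.card_le_card hsub
        simp at h2
        rw [h2] at hcard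
        simp at hcard
      | minG a b =>
        intro m hm hcard
        simp only [Gate.mon, List.mem_append] at hm
        rcases hm with hm | hm
        · have hsub : touched (Gate.mon C.mon (Gate.minG a b)) ⊆ touched (C.mon a) := by
            intro v hv
            rw [mem_touched] at hv ⊢
            intro m' hm'
            exact hv m' (by simp [Gate.mon, hm'])
          obtain ⟨g, h1, h2, A, hA, B, hB, hctx⟩ := ih a m hm
            (lt_of_lt_of_le hcard (Finset.card_le_card hsub))
          refine ⟨Fin.castSucc g, ?_⟩
          simp only [Fin.snoc_castSucc]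
          refine ⟨h1, h2, A, hA, B, hB, ?_⟩
          intro A' hA'
          simp only [Gate.mon, List.mem_append]
          exact Or.inl (hctx A' hA')
        · have hsub : touched (Gate.mon C.mon (Gate.minG a b)) ⊆ touched (C.mon b) := by
            intro v hv
            rw [mem_touched] at hv ⊢
            intro m' hm'
            exact hv m' (by simp [Gate.mon, hm'])
          obtain ⟨g, h1, h2, A, hA, B, hB, hctx⟩ := ih b m hm
            (lt_of_lt_of_le hcard (Finset.card_le_card hsub))
          refine ⟨Fin.castSucc g, ?_⟩
          simp only [Fin.snoc_castSucc]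
          refine ⟨h1, h2, A, hA, B, hB, ?_⟩
          intro A' hA'
          simp only [Gate.mon, List.mem_append]
          exact Or.inr (hctx A' hA')
      | addG a b =>
        intro m hm hcard
        simp only [Gate.mon, List.mem_flatMap, List.mem_map] at hm
        obtain ⟨q, hq, r, hr, rfl⟩ := hm
        have hsub : touched (Gate.mon C.mon (Gate.addG a b)) ⊆
            touched (C.mon a) ∪ touched (C.mon b) := by
          intro v hv
          rw [mem_touched] at hv
          by_contra hcon
          rw [Finset.mem_union, not_or, mem_touched, mem_touched] at hcon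
          obtain ⟨hc1, hc2⟩ := hcon
          push Not at hc1 hc2
          obtain ⟨m1, hm1, d1⟩ := hc1
          obtain ⟨m2, hm2, d2⟩ := hc2
          have := hv (m1.1 + m2.1, m1.2 + m2.2) (by
            simp only [Gate.mon, List.mem_flatMap, List.mem_map]
            exact ⟨m1, hm1, m2, hm2, rfl⟩)
          simp only [deg_add] at this
          omega
        have hcard2 := (lt_of_lt_of_le hcard (Finset.card_le_card hsub)).trans_le
          (Finset.card_union_le _ _)
        rcases le_total (touched (C.mon b)).card (touched (C.mon a)).card with hab | hab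
        · by_cases hta : (touched (C.mon a)).card ≤ t
          · refine ⟨Fin.castSucc a, ?_⟩
            simp only [Fin.snoc_castSucc]
            refine ⟨hta, by omega, q, hq, r, rfl, ?_⟩
            intro A' hA'
            simp only [Gate.mon, List.mem_flatMap, List.mem_map]
            exact ⟨A', hA', r, hr, rfl⟩
          · obtain ⟨g, h1, h2, A, hA, B, hB, hctx⟩ := ih a q hq (by omega)
            refine ⟨Fin.castSucc g, ?_⟩
            simp only [Fin.snoc_castSucc]
            refine ⟨h1, h2, A, hA, (B.1 + r.1, B.2 + r.2), ?_, ?_⟩
            · simp only; rw [← add_assoc, hB]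
            · intro A' hA'
              simp only [Gate.mon, List.mem_flatMap, List.mem_map]
              exact ⟨_, hctx A' hA', r, hr, by simp [add_assoc]⟩
        · by_cases htb : (touched (C.mon b)).card ≤ t
          · refine ⟨Fin.castSucc b, ?_⟩
            simp only [Fin.snoc_castSucc]
            refine ⟨htb, by omega, r, hr, q, add_comm _ _, ?_⟩
            intro A' hA'
            simp only [Gate.mon, List.mem_flatMap, List.mem_map]
            exact ⟨q, hq, A', hA', by rw [add_comm q.1, add_comm q.2]⟩
          · obtain ⟨g, h1, h2, A, hA, B, hB, hctx⟩ := ih b r hr (by omega)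
            refine ⟨Fin.castSucc g, ?_⟩
            simp only [Fin.snoc_castSucc]
            refine ⟨h1, h2, A, hA, (q.1 + B.1, q.2 + B.2), ?_, ?_⟩
            · simp only
              rw [← hB, ← add_assoc, ← add_assoc, add_comm A.1 q.1]
            · intro A' hA'
              simp only [Gate.mon, List.mem_flatMap, List.mem_map]
              refine ⟨q, hq, _, hctx A' hA', ?_⟩
              simp only [Prod.mk.injEq]
              constructor
              · rw [← add_assoc, ← add_assoc, add_comm A'.1 q.1]
              · ring
    · simp only [Circuit.mon, Fin.snoc_castSucc]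
      intro m hm hcard
      obtain ⟨g, h1, h2, A, hA, B, hB, hctx⟩ := ih j m hm hcard
      refine ⟨Fin.castSucc g, ?_⟩
      simp only [Fin.snoc_castSucc]
      exact ⟨h1, h2, A, hA, B, hB, hctx⟩

end Pool.Agent.H536R2
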