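import Mathlib
import Pool.Agent.H536R2.TropDefs
import Pool.Agent.H536R2.TropCirc

/-!
Geometry: scaling, degrees, the two-row configuration.
-/

namespace Pool.Agent.H536R2

open Finset

lemma edist_nonneg {n : ℕ} (p : Fin n → ℤ × ℤ) (i j : Fin n) : 0 ≤ edist p i j :=
  Real.sqrt_nonneg _

lemma edist_eq_intsqrt {n : ℕ} (p : Fin n → ℤ × ℤ) (i j : Fin n) :
    edist p i j =
      Real.sqrt ((((p i).1 - (p j).1) ^ 2 + ((p i).2 - (p j).2) ^ 2 : ℤ) : ℝ) := by
  unfold edist; push_cast; rfl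

/-- scaling a configuration -/
def scale {n : ℕ} (l : ℕ) (p : Fin n → ℤ × ℤ) : Fin n → ℤ × ℤ :=
  fun i => ((l : ℤ) * (p i).1, (l : ℤ) * (p i).2)

lemma edist_scale {n : ℕ} (l : ℕ) (p : Fin n → ℤ × ℤ) (i j : Fin n) :
    edist (scale l p) i j = l * edist p i j := by
  unfold edist scale
  simp only
  have h : (((l : ℤ) * (p i).1 - (l : ℤ) * (p j).1 : ℤ) : ℝ) ^ 2 +
      (((l : ℤ) * (p i).2 - (l : ℤ) * (p j).2 : ℤ) : ℝ) ^ 2 =
      (l : ℝ) ^ 2 * ((((p i).1 - (p j).1 : ℤ) : ℝ) ^ 2 + (((p i).2 - (p j).2 : ℤ) : ℝ) ^ 2) := by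
    push_cast; ring
  rw [h, Real.sqrt_mul (by positivity), Real.sqrt_sq (by positivity)]

lemma tourLength_scale {n : ℕ} (l : ℕ) (p : Fin n → ℤ × ℤ) (σ : Equiv.Perm (Fin n)) :
    tourLength (scale l p) σ = l * tourLength p σ := by
  unfold tourLength
  rw [Finset.mul_sum]
  exact Finset.sum_congr rfl fun i _ => edist_scale l p _ _

lemma tourLength_nonneg {n : ℕ} (p : Fin n → ℤ × ℤ) (σ : Equiv.Perm (Fin n)) :
    0 ≤ tourLength p σ := Finset.sum_nonneg fun i _ => edist_nonneg p _ _

lemma opt_le {n : ℕ} (p : Fin n → ℤ × ℤ) (σ : Equiv.Perm (Fin n)) : opt p ≤ tourLength p σ :=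
  ciInf_le ⟨0, by rintro _ ⟨σ, rfl⟩; exact tourLength_nonneg p σ⟩ σ

lemma le_opt {n : ℕ} (p : Fin n → ℤ × ℤ) (c : ℝ) (h : ∀ σ, c ≤ tourLength p σ) : c ≤ opt p :=
  le_ciInf h

lemma opt_scale {n : ℕ} (l : ℕ) (p : Fin n → ℤ × ℤ) : opt (scale l p) = l * opt p := by
  unfold opt
  rw [Real.mul_iInf_of_nonneg (by positivity)]
  exact iInf_congr fun σ => tourLength_scale l p σ

lemma scale_injective {n : ℕ} (l : ℕ) (hl : 0 < l) (p : Fin n → ℤ × ℤ)
    (hp : Function.Injective p) : Function.Injective (scale l p) := by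
  intro i j h
  apply hp
  have hl' : (l : ℤ) ≠ 0 := by exact_mod_cast hl.ne'
  simp only [scale, Prod.mk.injEq] at h
  exact Prod.ext (mul_left_cancel₀ hl' h.1) (mul_left_cancel₀ hl' h.2)

/-- cost of a multiset of edges -/
noncomputable def cost {n : ℕ} (p : Fin n → ℤ × ℤ) (M : Multiset (Fin n × Fin n)) : ℝ :=
  (M.map fun e => edist p e.1 e.2).sum

lemma cost_cons {n : ℕ} (p : Fin n → ℤ × ℤ) (e : Fin n × Fin n)
    (M : Multiset (Fin n × Fin n)) : cost p (e ::ₘ M) = edist p e.1 e.2 + cost p M := by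
  simp [cost]

lemma cost_add {n : ℕ} (p : Fin n → ℤ × ℤ) (M M' : Multiset (Fin n × Fin n)) :
    cost p (M + M') = cost p M + cost p M' := by
  simp [cost]

lemma cost_scale {n : ℕ} (l : ℕ) (p : Fin n → ℤ × ℤ) (M : Multiset (Fin n × Fin n)) :
    cost (scale l p) M = l * cost p M := by
  induction M using Multiset.induction with
  | empty => simp [cost]
  | cons e M ih => rw [cost_cons, cost_cons, ih, edist_scale]; ring

/-- The circuit `C` with output gate `o` approximates the shortest tour within factor `r`. -/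
def Approx {n s : ℕ} (r : ℝ) (C : Circuit (Fin n × Fin n) s) (o : Fin s) : Prop :=
  ∀ p : Fin n → ℤ × ℤ, Function.Injective p →
    opt p ≤ C.eval (fun e => edist p e.1 e.2) o ∧
      C.eval (fun e => edist p e.1 e.2) o ≤ r * opt p

/-- a linear inequality with an additive constant holding for all multiples holds without the
constant -/
lemma linear_limit (a b c : ℝ) (h : ∀ l : ℕ, 0 < l → (l : ℝ) * a ≤ (l : ℝ) * b + c) : a ≤ b := by
  by_contra hcon
  push Not at hcon
  obtain ⟨l, hl⟩ := exists_nat_gt (|c| / (a - b))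
  have hab : 0 < a - b := by linarith
  have hl0 : (0 : ℝ) < l := lt_of_le_of_lt (by positivity) hl
  have hl1 : 0 < l := by exact_mod_cast hl0
  have h1 := h l hl1
  rw [div_lt_iff₀ hab] at hl
  have := le_abs_self c
  nlinarith

lemma monomial_valid {n s : ℕ} {r : ℝ} {C : Circuit (Fin n × Fin n) s} {o : Fin s}
    (hC : Approx r C o) (m : Multiset (Fin n × Fin n) × ℝ) (hm : m ∈ C.mon o)
    (p : Fin n → ℤ × ℤ) (hp : Function.Injective p) : opt p ≤ cost p m.1 := by
  refine linear_limit _ _ m.2 fun l hl => ?_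
  have h1 := (hC (scale l p) (scale_injective l hl p hp)).1
  rw [opt_scale] at h1
  have h2 := C.eval_le (fun e => edist (scale l p) e.1 e.2) o m hm
  have h3 : mval (fun e => edist (scale l p) e.1 e.2) m = cost (scale l p) m.1 + m.2 := rfl
  rw [h3, cost_scale] at h2
  linarith

lemma exists_cheap {n s : ℕ} {r : ℝ} {C : Circuit (Fin n × Fin n) s} {o : Fin s}
    (hC : Approx r C o) (p : Fin n → ℤ × ℤ) (hp : Function.Injective p) :
    ∃ m ∈ C.mon o, cost p m.1 ≤ r * opt p := by
  by_contra hcon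
  push Not at hcon
  -- a common large multiplier
  have key : ∀ L : List (Multiset (Fin n × Fin n) × ℝ), (∀ m ∈ L, r * opt p < cost p m.1) →
      ∃ l0 : ℕ, 0 < l0 ∧ ∀ l : ℕ, l0 ≤ l → ∀ m ∈ L, (l : ℝ) * (r * opt p) <
        (l : ℝ) * cost p m.1 + m.2 := by
    intro L
    induction L with
    | nil => intro _; exact ⟨1, one_pos, fun l _ m hm => by simp at hm⟩
    | cons a L ih =>
      intro h
      obtain ⟨l0, hl0, ih'⟩ := ih fun m hm => h m (List.mem_cons_of_mem _ hm)
      have ha := h a List.mem_cons_self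
      have hpos : 0 < cost p a.1 - r * opt p := by linarith
      obtain ⟨l1, hl1⟩ := exists_nat_gt (|a.2| / (cost p a.1 - r * opt p))
      refine ⟨max l0 l1, lt_of_lt_of_le hl0 (le_max_left _ _), ?_⟩
      intro l hl m hm
      rw [List.mem_cons] at hm
      rcases hm with rfl | hm
      · have h1 : (l1 : ℝ) ≤ l := by exact_mod_cast (le_max_right _ _).trans hl
        rw [div_lt_iff₀ hpos] at hl1
        have h2 := neg_abs_le m.2
        nlinarith
      · exact ih' l ((le_max_left _ _).trans hl) m hm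
  obtain ⟨l0, hl0, hk⟩ := key (C.mon o) hcon
  obtain ⟨m, hm, he⟩ := C.exists_eq (fun e => edist (scale l0 p) e.1 e.2) o
  have h1 := (hC (scale l0 p) (scale_injective l0 hl0 p hp)).2
  rw [opt_scale, he] at h1
  have h3 : mval (fun e => edist (scale l0 p) e.1 e.2) m = cost (scale l0 p) m.1 + m.2 := rfl
  rw [h3, cost_scale] at h1
  have := hk l0 le_rfl m hm
  nlinarith

/-! ### every produced monomial has all degrees at least two -/

/-- all points on a segment, except that `u` is far away -/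
def far {n : ℕ} (u : Fin n) (R : ℕ) : Fin n → ℤ × ℤ :=
  fun i => if i = u then ((n + R : ℕ), 0) else ((i : ℕ), 0)

lemma far_injective {n : ℕ} (u : Fin n) (R : ℕ) : Function.Injective (far u R) := by
  intro i j h
  unfold far at h
  split_ifs at h with h1 h2 h2
  · rw [h1, h2]
  · have := congrArg Prod.fst h
    simp only at this
    have hj := j.isLt
    omega
  · have := congrArg Prod.fst h
    simp only at this
    have hi := i.isLt
    omega
  · have := congrArg Prod.fst h
    simp only at this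
    exact Fin.ext (by exact_mod_cast this)

lemma edist_horizontal {n : ℕ} (p : Fin n → ℤ × ℤ) (i j : Fin n) (h : (p i).2 = (p j).2) :
    edist p i j = |(((p i).1 - (p j).1 : ℤ) : ℝ)| := by
  unfold edist
  rw [h]
  simp [Real.sqrt_sq_eq_abs]

lemma far_dist_ge {n : ℕ} (u v : Fin n) (R : ℕ) (huv : v ≠ u) : (R : ℝ) ≤ edist (far u R) u v := by
  rw [edist_horizontal _ _ _ (by simp [far, huv])]
  simp only [far, if_true, if_neg huv]
  have hv := v.isLt
  refine le_trans ?_ (le_abs_self _)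
  push_cast
  have : (v : ℝ) ≤ n := by exact_mod_cast hv.le
  have h2 : ((v : ℕ) : ℝ) ≤ n := this
  linarith

lemma edist_comm {n : ℕ} (p : Fin n → ℤ × ℤ) (i j : Fin n) : edist p i j = edist p j i := by
  unfold edist
  congr 1
  push_cast
  ring

lemma far_dist_le {n : ℕ} (u : Fin n) (R : ℕ) (i j : Fin n) :
    edist (far u R) i j ≤ n + if i ≠ j ∧ (u = i ∨ u = j) then (R : ℝ) else 0 := by
  rw [edist_horizontal _ _ _ (by unfold far; split_ifs <;> rfl)]
  have hi := i.isLt
  have hj := j.isLt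
  have hi' : ((i : ℕ) : ℝ) ≤ n := by exact_mod_cast hi.le
  have hj' : ((j : ℕ) : ℝ) ≤ n := by exact_mod_cast hj.le
  have hi0 : (0 : ℝ) ≤ ((i : ℕ) : ℝ) := by positivity
  have hj0 : (0 : ℝ) ≤ ((j : ℕ) : ℝ) := by positivity
  have hn0 : (0 : ℝ) ≤ (n : ℝ) := by positivity
  have hR0 : (0 : ℝ) ≤ (R : ℝ) := by positivity
  by_cases h1 : i = u
  · by_cases h2 : j = u
    · subst h1; subst h2; simp
    · subst h1
      rw [if_pos ⟨fun h => h2 h.symm, Or.inl rfl⟩]
      simp only [far, if_true, if_neg h2]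
      push_cast
      rw [abs_le]; constructor <;> linarith
  · by_cases h2 : j = u
    · subst h2
      rw [if_pos ⟨h1, Or.inr rfl⟩]
      simp only [far, if_true, if_neg h1]
      push_cast
      rw [abs_le]; constructor <;> linarith
    · rw [if_neg]
      · simp only [far, if_neg h1, if_neg h2]
        push_cast
        rw [abs_le]; constructor <;> linarith
      · rintro ⟨_, h | h⟩
        · exact h1 h.symm
        · exact h2 h.symm

lemma far_cost_le {n : ℕ} (u : Fin n) (R : ℕ) (M : Multiset (Fin n × Fin n)) :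
    cost (far u R) M ≤ Multiset.card M * n + deg M u * R := by
  induction M using Multiset.induction with
  | empty => simp [cost, deg_zero]
  | cons e M ih =>
    rw [cost_cons, deg_cons, Multiset.card_cons]
    have := far_dist_le u R e.1 e.2
    push_cast
    split_ifs at this ⊢ <;> nlinarith

lemma far_opt_ge {n : ℕ} (hn : 2 ≤ n) (u : Fin n) (R : ℕ) : 2 * (R : ℝ) ≤ opt (far u R) := by
  refine le_opt _ _ fun σ => ?_
  obtain ⟨m, rfl⟩ : ∃ m, n = m + 2 := ⟨n - 2, by omega⟩
  set j := σ.symm u with hj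
  set j' := (finRotate (m + 2)).symm j with hj'
  have hσj : σ j = u := by simp [hj]
  have hrj' : finRotate (m + 2) j' = j := by simp [hj']
  have hne : j' ≠ j := by
    intro h
    rw [h] at hrj'
    have : finRotate (m + 2) j ≠ j := by
      have := finRotate_apply j
      rw [this]
      intro hcon
      have h1 := congrArg (fun x => x - j) hcon
      simp at h1
    exact this hrj'
  unfold tourLength
  have h1 : (R : ℝ) ≤ edist (far u R) (σ j) (σ (finRotate (m + 2) j)) := by
    rw [hσj]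
    refine far_dist_ge u _ R ?_
    intro h
    rw [← hσj] at h
    have := σ.injective h
    have h2 : finRotate (m + 2) j = finRotate (m + 2) j' := by rw [hrj', this]
    exact hne ((finRotate (m + 2)).injective h2).symm
  have h2 : (R : ℝ) ≤ edist (far u R) (σ j') (σ (finRotate (m + 2) j')) := by
    rw [hrj', hσj, edist_comm]
    refine far_dist_ge u _ R ?_
    intro h
    rw [← hσj] at h
    exact hne (σ.injective h)
  have hsub : ({j', j} : Finset (Fin (m + 2))) ⊆ univ := Finset.subset_univ _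
  calc 2 * (R : ℝ) = R + R := by ring
    _ ≤ edist (far u R) (σ j') (σ (finRotate (m + 2) j')) +
        edist (far u R) (σ j) (σ (finRotate (m + 2) j)) := add_le_add h2 h1
    _ = ∑ i ∈ ({j', j} : Finset (Fin (m + 2))),
        edist (far u R) (σ i) (σ (finRotate (m + 2) i)) := by
        rw [Finset.sum_pair hne]
    _ ≤ _ := Finset.sum_le_sum_of_subset_of_nonneg hsub fun i _ _ => edist_nonneg _ _ _

lemma deg_ge_two {n : ℕ} (hn : 2 ≤ n) (M : Multiset (Fin n × Fin n))
    (h : ∀ p : Fin n → ℤ × ℤ, Function.Injective p → opt p ≤ cost p M) (u : Fin n) :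
    2 ≤ deg M u := by
  have : (2 : ℝ) ≤ deg M u := by
    refine linear_limit _ _ (Multiset.card M * n) fun R _ => ?_
    have h1 := h (far u R) (far_injective u R)
    have h2 := far_opt_ge hn u R
    have h3 := far_cost_le u R M
    linarith
  exact_mod_cast this

/-! ### the cost lemma -/

lemma sum_deg_cons {n : ℕ} (Y : Finset (Fin n)) (e : Fin n × Fin n)
    (M : Multiset (Fin n × Fin n)) :
    ∑ v ∈ Y, deg (e ::ₘ M) v = ∑ v ∈ Y, deg M v +
      (Y.filter fun v => e.1 ≠ e.2 ∧ (v = e.1 ∨ v = e.2)).card := by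
  simp only [deg_cons, Finset.sum_add_distrib, Finset.card_filter]

lemma cost_lemma_A {n : ℕ} (p : Fin n → ℤ × ℤ) (Y Z : Finset (Fin n))
    (h1 : ∀ i j, i ≠ j → 1 ≤ edist p i j)
    (hZ : ∀ i j, i ≠ j → i ∈ Y → j ∈ Y → i ∈ Z → 2 ≤ edist p i j) (hZY : Z ⊆ Y)
    (A : Multiset (Fin n × Fin n)) :
    ((∑ v ∈ Y, deg A v : ℕ) : ℝ) / 2 + ((∑ v ∈ Z, deg A v : ℕ) : ℝ) / 2 ≤ cost p A := by
  induction A using Multiset.induction with
  | empty => simp [cost, deg_zero]
  | cons e A ih =>
    rw [cost_cons, sum_deg_cons, sum_deg_cons]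
    push_cast
    set a := (Y.filter fun v => e.1 ≠ e.2 ∧ (v = e.1 ∨ v = e.2)).card with ha
    set b := (Z.filter fun v => e.1 ≠ e.2 ∧ (v = e.1 ∨ v = e.2)).card with hb
    push_cast at ih
    suffices hsuff : (a : ℝ) / 2 + (b : ℝ) / 2 ≤ edist p e.1 e.2 by linarith
    by_cases he : e.1 = e.2
    · have ha0 : a = 0 := by rw [ha]; simp [he]
      have hb0 : b = 0 := by rw [hb]; simp [he]
      rw [ha0, hb0]
      simpa using edist_nonneg p e.1 e.2
    · have hcard2 : ∀ W : Finset (Fin n),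
          (W.filter fun v => e.1 ≠ e.2 ∧ (v = e.1 ∨ v = e.2)).card ≤ 2 := by
        intro W
        have : (W.filter fun v => e.1 ≠ e.2 ∧ (v = e.1 ∨ v = e.2)) ⊆ {e.1, e.2} := by
          intro v hv
          rw [Finset.mem_filter] at hv
          simpa using hv.2.2
        exact (Finset.card_le_card this).trans Finset.card_le_two
      have hba : b ≤ a := by
        rw [ha, hb]
        exact Finset.card_le_card (Finset.filter_subset_filter _ hZY)
      have ha2 : a ≤ 2 := by rw [ha]; exact hcard2 Y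
      by_cases hb0 : b = 0
      · rw [hb0]
        have : (a : ℝ) ≤ 2 := by exact_mod_cast ha2
        have := h1 e.1 e.2 he
        push_cast
        linarith
      · by_cases ha1 : a = 1
        · have hb1 : b ≤ 1 := by omega
          have hb1' : (b : ℝ) ≤ 1 := by exact_mod_cast hb1
          have := h1 e.1 e.2 he
          rw [ha1]
          push_cast
          linarith
        · have ha2' : a = 2 := by omega
          -- both endpoints in Y
          have hsub : ({e.1, e.2} : Finset (Fin n)) ⊆ Y := by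
            have h3 : (Y.filter fun v => e.1 ≠ e.2 ∧ (v = e.1 ∨ v = e.2)) ⊆ {e.1, e.2} := by
              intro v hv
              rw [Finset.mem_filter] at hv
              simpa using hv.2.2
            have h4 : ({e.1, e.2} : Finset (Fin n)).card ≤
                (Y.filter fun v => e.1 ≠ e.2 ∧ (v = e.1 ∨ v = e.2)).card := by
              rw [← ha, ha2']; exact Finset.card_le_two
            have h5 := Finset.eq_of_subset_of_card_le h3 h4
            rw [← h5]
            exact Finset.filter_subset _ _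
          have hy1 : e.1 ∈ Y := hsub (by simp)
          have hy2 : e.2 ∈ Y := hsub (by simp)
          -- some endpoint in Z
          have hbpos : 0 < b := Nat.pos_of_ne_zero hb0
          rw [hb, Finset.card_pos] at hbpos
          obtain ⟨z, hz⟩ := hbpos
          rw [Finset.mem_filter] at hz
          have h2 : 2 ≤ edist p e.1 e.2 := by
            rcases hz.2.2 with h | h
            · exact hZ e.1 e.2 he hy1 hy2 (h ▸ hz.1)
            · rw [edist_comm]
              exact hZ e.2 e.1 (Ne.symm he) hy2 hy1 (h ▸ hz.1)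
          have hb2 : (b : ℝ) ≤ 2 := by exact_mod_cast hba.trans ha2
          have ha2r : (a : ℝ) ≤ 2 := by exact_mod_cast ha2
          linarith

lemma cost_lemma_B {n : ℕ} (p : Fin n → ℤ × ℤ)
    (h1 : ∀ i j, i ≠ j → 1 ≤ edist p i j) (B : Multiset (Fin n × Fin n)) :
    ((∑ v, deg B v : ℕ) : ℝ) / 2 ≤ cost p B := by
  have := cost_lemma_A p univ ∅ h1 (by simp) (Finset.empty_subset _) B
  simpa using this

lemma cost_lemma {n : ℕ} (p : Fin n → ℤ × ℤ) (Y Z : Finset (Fin n))
    (h1 : ∀ i j, i ≠ j → 1 ≤ edist p i j)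
    (hZ : ∀ i j, i ≠ j → i ∈ Y → j ∈ Y → i ∈ Z → 2 ≤ edist p i j) (hZY : Z ⊆ Y)
    (A B : Multiset (Fin n × Fin n)) (hA : ∀ v ∈ Y, 1 ≤ deg A v)
    (hAB : ∀ v, 2 ≤ deg A v + deg B v) (hB : ∀ v, v ∉ Y → 2 ≤ deg B v) :
    (n : ℝ) + (Z.card : ℝ) / 2 ≤ cost p (A + B) := by
  rw [cost_add]
  have a1 := cost_lemma_A p Y Z h1 hZ hZY A
  have b1 := cost_lemma_B p h1 B
  have hz : Z.card ≤ ∑ v ∈ Z, deg A v := by
    rw [Finset.card_eq_sum_ones]
    exact Finset.sum_le_sum fun v hv => hA v (hZY hv)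
  have hn : 2 * n ≤ ∑ v ∈ Y, deg A v + ∑ v, deg B v := by
    have h2 : ∑ v ∈ Y, deg A v = ∑ v, if v ∈ Y then deg A v else 0 := by
      rw [Finset.sum_ite_mem, Finset.univ_inter]
    rw [h2, ← Finset.sum_add_distrib]
    calc 2 * n = ∑ _v : Fin n, 2 := by simp [mul_comm]
      _ ≤ _ := Finset.sum_le_sum fun v _ => by
          by_cases hv : v ∈ Y
          · rw [if_pos hv]; exact hAB v
          · rw [if_neg hv]; have := hB v hv; omega
  have hz' : (Z.card : ℝ) ≤ ((∑ v ∈ Z, deg A v : ℕ) : ℝ) := by exact_mod_cast hz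
  have hn' : 2 * (n : ℝ) ≤ ((∑ v ∈ Y, deg A v : ℕ) : ℝ) + ((∑ v, deg B v : ℕ) : ℝ) := by
    exact_mod_cast hn
  linarith

/-! ### the two-row configuration -/

/-- position number `a` of the two-row configuration -/
def row (n : ℕ) (a : ℕ) : ℤ × ℤ := if a < n / 2 then ((a : ℤ), 0) else ((n : ℤ) - 1 - a, 2)

/-- the configuration in which label `i` is placed at position `π i` -/
def conf {n : ℕ} (π : Equiv.Perm (Fin n)) : Fin n → ℤ × ℤ := fun i => row n (π i)

lemma one_le_edist {n : ℕ} (p : Fin n → ℤ × ℤ) (hp : Function.Injective p) (i j : Fin n)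
    (hij : i ≠ j) : 1 ≤ edist p i j := by
  rw [edist_eq_intsqrt]
  rw [Real.one_le_sqrt]
  have : (1 : ℤ) ≤ ((p i).1 - (p j).1) ^ 2 + ((p i).2 - (p j).2) ^ 2 := by
    by_contra hcon
    push Not at hcon
    have h1 : 0 ≤ ((p i).1 - (p j).1) ^ 2 := sq_nonneg _
    have h2 : 0 ≤ ((p i).2 - (p j).2) ^ 2 := sq_nonneg _
    have h3 : ((p i).1 - (p j).1) ^ 2 = 0 := by omega
    have h4 : ((p i).2 - (p j).2) ^ 2 = 0 := by omega
    have h5 : (p i).1 - (p j).1 = 0 := by simpa using h3
    have h6 : (p i).2 - (p j).2 = 0 := by simpa using h4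
    exact hij (hp (Prod.ext (by omega) (by omega)))
  exact_mod_cast this

lemma row_inj {n : ℕ} {a b : ℕ} (h : row n a = row n b) : a = b := by
  unfold row at h
  split_ifs at h with h1 h2 h2
  · have := congrArg Prod.fst h
    simp only at this
    exact_mod_cast this
  · have := congrArg Prod.snd h
    simp at this
  · have := congrArg Prod.snd h
    simp at this
  · have := congrArg Prod.fst h
    simp only at this
    omega

lemma conf_injective {n : ℕ} (π : Equiv.Perm (Fin n)) : Function.Injective (conf π) := by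
  intro i j h
  have := row_inj h
  exact π.injective (Fin.ext this)

lemma four_le_of_two_le (x : ℤ) (h : 2 ≤ x ∨ x ≤ -2) : 4 ≤ x ^ 2 := by
  rcases h with h | h <;> nlinarith

lemma two_le_edist_conf {n : ℕ} (π : Equiv.Perm (Fin n)) (i j : Fin n)
    (h : ((π i : Fin n) : ℕ) + 2 ≤ (π j : Fin n) ∨ ((π j : Fin n) : ℕ) + 2 ≤ (π i : Fin n)) :
    2 ≤ edist (conf π) i j := by
  rw [edist_eq_intsqrt]
  have h4 : (4 : ℤ) ≤ ((conf π i).1 - (conf π j).1) ^ 2 + ((conf π i).2 - (conf π j).2) ^ 2 := by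
    unfold conf row
    split_ifs with h1 h2 h2
    · simp only
      have := four_le_of_two_le (((π i : Fin n) : ℕ) - ((π j : Fin n) : ℕ) : ℤ) (by omega)
      nlinarith [sq_nonneg ((0 : ℤ) - 0)]
    · simp only
      nlinarith [sq_nonneg ((((π i : Fin n) : ℕ) : ℤ) - ((n : ℤ) - 1 - ((π j : Fin n) : ℕ)))]
    · simp only
      nlinarith [sq_nonneg (((n : ℤ) - 1 - ((π i : Fin n) : ℕ)) - (((π j : Fin n) : ℕ) : ℤ))]
    · simp only
      have := four_le_of_two_le (((n : ℤ) - 1 - ((π i : Fin n) : ℕ)) -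
        ((n : ℤ) - 1 - ((π j : Fin n) : ℕ)) : ℤ) (by omega)
      nlinarith [sq_nonneg ((2 : ℤ) - 2)]
  have h5 : (2 : ℝ) = Real.sqrt 4 := by
    rw [show (4 : ℝ) = 2 ^ 2 by norm_num, Real.sqrt_sq (by norm_num)]
  rw [h5]
  apply Real.sqrt_le_sqrt
  exact_mod_cast h4

/-- consecutive positions have distance at most 1, with one exception (at most 3) -/
lemma edist_conf_next {n : ℕ} (π : Equiv.Perm (Fin n)) (i j : Fin n)
    (h : ((π j : Fin n) : ℕ) = (π i : Fin n) + 1) :
    edist (conf π) i j ≤ 1 + if ((π i : Fin n) : ℕ) + 1 = n / 2 then 2 else 0 := by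
  rw [edist_eq_intsqrt]
  by_cases hc : ((π i : Fin n) : ℕ) + 1 = n / 2
  · rw [if_pos hc]
    have h9 : ((conf π i).1 - (conf π j).1) ^ 2 + ((conf π i).2 - (conf π j).2) ^ 2 ≤ 9 := by
      unfold conf row
      rw [if_pos (by omega), if_neg (by omega)]
      simp only
      have hx : (((π i : Fin n) : ℕ) : ℤ) - ((n : ℤ) - 1 - ((π j : Fin n) : ℕ)) = 0 ∨
        (((π i : Fin n) : ℕ) : ℤ) - ((n : ℤ) - 1 - ((π j : Fin n) : ℕ)) = -1 := by omega
      rcases hx with hx | hx <;> rw [hx] <;> norm_num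
    have : (1 + 2 : ℝ) = Real.sqrt 9 := by
      rw [show (9 : ℝ) = 3 ^ 2 by norm_num, Real.sqrt_sq (by norm_num)]; norm_num
    rw [this]
    apply Real.sqrt_le_sqrt
    exact_mod_cast h9
  · rw [if_neg hc]
    have h9 : ((conf π i).1 - (conf π j).1) ^ 2 + ((conf π i).2 - (conf π j).2) ^ 2 ≤ 1 := by
      unfold conf row
      split_ifs with h1 h2 h2
      · simp only
        have hx : (((π i : Fin n) : ℕ) : ℤ) - (((π j : Fin n) : ℕ) : ℤ) = -1 := by omega
        rw [hx]; norm_num
      · omega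
      · omega
      · simp only
        have hx : ((n : ℤ) - 1 - ((π i : Fin n) : ℕ)) - ((n : ℤ) - 1 - ((π j : Fin n) : ℕ)) = 1 := by
          omega
        rw [hx]; norm_num
    have : (1 + 0 : ℝ) = Real.sqrt 1 := by simp
    rw [this]
    apply Real.sqrt_le_sqrt
    exact_mod_cast h9

lemma edist_conf_close {n : ℕ} (hn : 2 ≤ n) (π : Equiv.Perm (Fin n)) (i j : Fin n)
    (hi : ((π i : Fin n) : ℕ) + 1 = n) (hj : ((π j : Fin n) : ℕ) = 0) :
    edist (conf π) i j ≤ 2 := by
  rw [edist_eq_intsqrt]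
  have h9 : ((conf π i).1 - (conf π j).1) ^ 2 + ((conf π i).2 - (conf π j).2) ^ 2 ≤ 4 := by
    unfold conf row
    rw [if_neg (by omega), if_pos (by omega)]
    simp only
    have hx : ((n : ℤ) - 1 - ((π i : Fin n) : ℕ)) - (((π j : Fin n) : ℕ) : ℤ) = 0 := by omega
    rw [hx]; norm_num
  have : (2 : ℝ) = Real.sqrt 4 := by
    rw [show (4 : ℝ) = 2 ^ 2 by norm_num, Real.sqrt_sq (by norm_num)]
  rw [this]
  apply Real.sqrt_le_sqrt
  exact_mod_cast h9

lemma opt_conf_le {n : ℕ} (hn : 2 ≤ n) (π : Equiv.Perm (Fin n)) : opt (conf π) ≤ n + 3 := by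
  refine (opt_le _ π.symm).trans ?_
  obtain ⟨m, rfl⟩ : ∃ m, n = m + 2 := ⟨n - 2, by omega⟩
  unfold tourLength
  rw [Fin.sum_univ_castSucc]
  have hlast : edist (conf π) (π.symm (Fin.last (m + 1)))
      (π.symm (finRotate (m + 2) (Fin.last (m + 1)))) ≤ 2 := by
    refine edist_conf_close hn π _ _ ?_ ?_
    · simp
    · rw [finRotate_last]; simp
  have hrest : ∀ i : Fin (m + 1), edist (conf π) (π.symm (Fin.castSucc i))
      (π.symm (finRotate (m + 2) (Fin.castSucc i))) ≤
      1 + if (i : ℕ) + 1 = (m + 2) / 2 then 2 else 0 := by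
    intro i
    have h1 : finRotate (m + 2) (Fin.castSucc i) = Fin.succ i := by
      rw [finRotate_apply]
      exact Fin.coeSucc_eq_succ
    have := edist_conf_next π (π.symm (Fin.castSucc i))
      (π.symm (finRotate (m + 2) (Fin.castSucc i))) (by
        rw [h1]; simp)
    simpa using this
  have hsum : ∑ i : Fin (m + 1), (1 + if (i : ℕ) + 1 = (m + 2) / 2 then (2 : ℝ) else 0) ≤
      (m + 1) + 2 := by
    rw [Finset.sum_add_distrib]
    have h1 : ∑ _i : Fin (m + 1), (1 : ℝ) = m + 1 := by simp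
    have h2 : ∑ i : Fin (m + 1), (if (i : ℕ) + 1 = (m + 2) / 2 then (2 : ℝ) else 0) ≤ 2 := by
      rw [← Finset.sum_filter, Finset.sum_const, nsmul_eq_mul]
      have hc : (univ.filter fun i : Fin (m + 1) => (i : ℕ) + 1 = (m + 2) / 2).card ≤ 1 := by
        rw [Finset.card_le_one]
        intro a ha b hb
        rw [Finset.mem_filter] at ha hb
        exact Fin.ext (by omega)
      have hc' : ((univ.filter fun i : Fin (m + 1) => (i : ℕ) + 1 = (m + 2) / 2).card : ℝ) ≤ 1 := by
        exact_mod_cast hc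
      linarith
    linarith
  have := Finset.sum_le_sum fun i (_ : i ∈ (univ : Finset (Fin (m + 1)))) => hrest i
  push_cast
  linarith

end Pool.Agent.H536R2
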